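import Mathlib

/-!
# Module FPres: subgroups of finite index of finitely presented groups are finitely presented
-/

set_option linter.unusedSectionVars false

namespace Pool.Agent.VFm

/-- finitely generated free groups are finitely presented -/
theorem fpres_free (F : Type) [Group F] [IsFreeGroup F] [Group.FG F] :
    Group.IsFinitelyPresented F := by
  obtain ⟨α, hα, π, hπ⟩ :=
    (Group.fg_iff_exists_freeGroup_hom_surjective_finite (G := F)).1 inferInstance
  let s : F →* FreeGroup α := IsFreeGroup.lift fun x => (hπ (IsFreeGroup.of x)).choose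
  have hs : ∀ x, π (s x) = x := by
    intro x
    have h1 : π.comp s = MonoidHom.id F := by
      apply IsFreeGroup.ext_hom
      intro a
      change π (s (IsFreeGroup.of a)) = IsFreeGroup.of a
      rw [IsFreeGroup.lift_of]
      exact (hπ (IsFreeGroup.of a)).choose_spec
    exact DFunLike.congr_fun h1 x
  have : Finite α := hα
  refine Group.IsFinitelyPresented.of_surjective π hπ
    ⟨Set.range fun a : α => (FreeGroup.of a)⁻¹ * s (π (FreeGroup.of a)), Set.finite_range _, ?_⟩
  obtain ⟨N, hNd⟩ : ∃ N, N = Subgroup.normalClosure (Set.range fun a : α =>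
    (FreeGroup.of a)⁻¹ * s (π (FreeGroup.of a))) := ⟨_, rfl⟩
  rw [← hNd]
  have hNn : N.Normal := hNd ▸ Subgroup.normalClosure_normal
  apply le_antisymm
  · rw [hNd]
    apply Subgroup.normalClosure_le_normal
    rintro _ ⟨a, rfl⟩
    change π ((FreeGroup.of a)⁻¹ * s (π (FreeGroup.of a))) = 1
    rw [map_mul, hs, map_inv, inv_mul_cancel]
  · intro w hw
    have h2 : QuotientGroup.mk' N = (QuotientGroup.mk' N).comp (s.comp π) := by
      apply FreeGroup.ext_hom
      intro a
      change (QuotientGroup.mk (FreeGroup.of a) : FreeGroup α ⧸ N) =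
        QuotientGroup.mk (s (π (FreeGroup.of a)))
      rw [QuotientGroup.eq, hNd]
      exact Subgroup.subset_normalClosure ⟨a, rfl⟩
    have h3 := DFunLike.congr_fun h2 w
    have h4 : π w = 1 := hw
    rw [← QuotientGroup.eq_one_iff]
    change QuotientGroup.mk' N w = 1
    rw [h3]
    change QuotientGroup.mk' N (s (π w)) = 1
    rw [h4, map_one, map_one]

/-- subgroups of finite index of finitely presented groups are finitely presented -/
theorem fpres_sub (G : Type) [Group G] [hG : Group.IsFinitelyPresented G] (H : Subgroup G)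
    [H.FiniteIndex] : Group.IsFinitelyPresented H := by
  obtain ⟨n, φ, hφ, S, hS, hN⟩ := hG.out
  have hfi : (H.comap φ).FiniteIndex := by
    refine ⟨?_⟩
    rw [Subgroup.index_comap_of_surjective H hφ]
    exact Subgroup.FiniteIndex.index_ne_zero
  have hfg : Group.FG (H.comap φ) := Subgroup.fg_of_index_ne_zero _
  have hfp : Group.IsFinitelyPresented (H.comap φ) := fpres_free _
  let f : H.comap φ →* H := (φ.comp (H.comap φ).subtype).codRestrict H (fun x => x.2)
  have hf : Function.Surjective f := by
    rintro ⟨y, hy⟩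
    obtain ⟨x, rfl⟩ := hφ y
    exact ⟨⟨x, hy⟩, rfl⟩
  refine Group.IsFinitelyPresented.of_surjective f hf ?_
  have hSk : ∀ s ∈ S, φ s = 1 := by
    intro s hs
    have h1 : s ∈ φ.ker := by
      rw [← hN]
      exact Subgroup.subset_normalClosure hs
    exact h1
  have : Finite (FreeGroup (Fin n) ⧸ H.comap φ) := inferInstance
  let c : (FreeGroup (Fin n) ⧸ H.comap φ) × S → H.comap φ := fun p =>
    ⟨(Quotient.out p.1)⁻¹ * p.2 * Quotient.out p.1, by
      rw [Subgroup.mem_comap, map_mul, map_mul, hSk p.2 p.2.2, map_inv, mul_one, inv_mul_cancel]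
      exact H.one_mem⟩
  have : Finite S := hS
  refine ⟨Set.range c, Set.finite_range c, ?_⟩
  apply le_antisymm
  · have hk : f.ker.Normal := inferInstance
    apply Subgroup.normalClosure_le_normal
    rintro _ ⟨p, rfl⟩
    apply Subtype.ext
    change φ ((Quotient.out p.1)⁻¹ * p.2 * Quotient.out p.1) = 1
    rw [map_mul, map_mul, hSk p.2 p.2.2, map_inv, mul_one, inv_mul_cancel]
  · have key : Subgroup.normalClosure S ≤
        (Subgroup.normalClosure (Set.range c)).map (H.comap φ).subtype := by
      rw [Subgroup.normalClosure, Subgroup.closure_le]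
      intro y hy
      rw [Group.mem_conjugatesOfSet_iff] at hy
      obtain ⟨s, hs, hy⟩ := hy
      obtain ⟨g, rfl⟩ := isConj_iff.1 hy
      have h1 : g * Quotient.out (QuotientGroup.mk g⁻¹ : FreeGroup (Fin n) ⧸ H.comap φ) ∈
          H.comap φ := by
        have h2 : (QuotientGroup.mk g⁻¹ : FreeGroup (Fin n) ⧸ H.comap φ) =
            QuotientGroup.mk (Quotient.out (QuotientGroup.mk g⁻¹ : FreeGroup (Fin n) ⧸ H.comap φ)) :=
          (QuotientGroup.out_eq' _).symm
        rw [QuotientGroup.eq, inv_inv] at h2
        exact h2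
      refine ⟨(⟨_, h1⟩ : H.comap φ) * c (QuotientGroup.mk g⁻¹, ⟨s, hs⟩) *
        (⟨_, h1⟩ : H.comap φ)⁻¹, ?_, ?_⟩
      · have hn : (Subgroup.normalClosure (Set.range c)).Normal := Subgroup.normalClosure_normal
        exact hn.conj_mem _ (Subgroup.subset_normalClosure (Set.mem_range_self _)) _
      · change g * Quotient.out (QuotientGroup.mk g⁻¹ : FreeGroup (Fin n) ⧸ H.comap φ) *
          ((Quotient.out (QuotientGroup.mk g⁻¹ : FreeGroup (Fin n) ⧸ H.comap φ))⁻¹ * s *
            Quotient.out (QuotientGroup.mk g⁻¹ : FreeGroup (Fin n) ⧸ H.comap φ)) *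
          (g * Quotient.out (QuotientGroup.mk g⁻¹ : FreeGroup (Fin n) ⧸ H.comap φ))⁻¹ = g * s * g⁻¹
        group
    intro x hx
    have h3 : (x : FreeGroup (Fin n)) ∈ Subgroup.normalClosure S := by
      rw [hN]
      exact congrArg Subtype.val hx
    obtain ⟨y, hy, hxy⟩ := key h3
    have h4 : y = x := Subtype.ext hxy
    rwa [h4] at hy

end Pool.Agent.VFm
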