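import Mathlib

/-!
# Module FreeSub: free groups of rank `n + 2` as subgroups of finite index of the free group of rank two
-/

set_option linter.unusedSectionVars false

namespace Pool.Agent.VFm

section
variable (n : ℕ)

/-- the free group of rank `n + 2` -/
abbrev FX : Type := FreeGroup (Option (Fin (n + 1)))

/-- the free group of rank two -/
abbrev FT : Type := FreeGroup (Fin 2)

/-- the action of the first generator -/
def pA : Equiv.Perm (Fin (n + 1) × FX n) :=
  Equiv.prodShear (finRotate (n + 1)) fun i =>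
    if i = Fin.last n then Equiv.mulLeft (FreeGroup.of none) else Equiv.refl _

/-- the action of the second generator -/
def pB : Equiv.Perm (Fin (n + 1) × FX n) :=
  Equiv.prodShear (Equiv.refl _) fun i => Equiv.mulLeft (FreeGroup.of (some i))

theorem pA_last (x : FX n) : pA n (Fin.last n, x) = (0, FreeGroup.of none * x) := by
  rw [pA, Equiv.prodShear_apply]
  simp

theorem pA_lt (i : ℕ) (hi : i < n) (x : FX n) :
    pA n (⟨i, by omega⟩, x) = (⟨i + 1, by omega⟩, x) := by
  rw [pA, Equiv.prodShear_apply]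
  have h1 : (⟨i, by omega⟩ : Fin (n + 1)) ≠ Fin.last n := by
    intro h
    have h2 := congrArg Fin.val h
    simp at h2
    omega
  simp only [if_neg h1, Equiv.refl_apply]
  rw [finRotate_of_lt hi]

theorem pB_apply (i : Fin (n + 1)) (x : FX n) : pB n (i, x) = (i, FreeGroup.of (some i) * x) := rfl

/-- the action of the free group of rank two -/
def rhoX : FT →* Equiv.Perm (Fin (n + 1) × FX n) := FreeGroup.lift ![pA n, pB n]

theorem rhoX_0 : rhoX n (FreeGroup.of 0) = pA n := by
  rw [rhoX, FreeGroup.lift_apply_of]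
  rfl

theorem rhoX_1 : rhoX n (FreeGroup.of 1) = pB n := by
  rw [rhoX, FreeGroup.lift_apply_of]
  rfl

/-- the generators of the subgroup -/
def genX : Option (Fin (n + 1)) → FT
  | none => (FreeGroup.of 0) ^ (n + 1)
  | some i => ((FreeGroup.of 0) ^ (i : ℕ))⁻¹ * FreeGroup.of 1 * (FreeGroup.of 0) ^ (i : ℕ)

/-- the embedding -/
def thetaX : FX n →* FT := FreeGroup.lift (genX n)

theorem thetaX_none : thetaX n (FreeGroup.of none) = (FreeGroup.of 0) ^ (n + 1) := by
  rw [thetaX, FreeGroup.lift_apply_of]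
  rfl

theorem thetaX_some (i : Fin (n + 1)) : thetaX n (FreeGroup.of (some i)) =
    ((FreeGroup.of 0) ^ (i : ℕ))⁻¹ * FreeGroup.of 1 * (FreeGroup.of 0) ^ (i : ℕ) := by
  rw [thetaX, FreeGroup.lift_apply_of]
  rfl

/-- the map to the free group of rank two -/
def psiX (p : Fin (n + 1) × FX n) : FT := (FreeGroup.of 0) ^ (p.1 : ℕ) * thetaX n p.2

theorem psiX_rho (g : FT) : ∀ p, psiX n (rhoX n g p) = g * psiX n p := by
  induction g using FreeGroup.induction_on with
  | C1 =>
    intro p
    rw [map_one, Equiv.Perm.one_apply, one_mul]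
  | of x =>
    rintro ⟨i, y⟩
    change psiX n (rhoX n (FreeGroup.of x) (i, y)) = FreeGroup.of x * psiX n (i, y)
    fin_cases x
    · change psiX n (rhoX n (FreeGroup.of 0) (i, y)) = FreeGroup.of 0 * psiX n (i, y)
      rw [rhoX_0]
      obtain ⟨i, hi⟩ := i
      by_cases h : i < n
      · rw [pA_lt n i h]
        change (FreeGroup.of 0) ^ (i + 1) * thetaX n y =
          FreeGroup.of 0 * ((FreeGroup.of 0) ^ i * thetaX n y)
        rw [pow_succ', mul_assoc]
      · have h1 : i = n := by omega
        subst h1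
        have h2 : (⟨i, hi⟩ : Fin (i + 1)) = Fin.last i := rfl
        rw [h2, pA_last]
        change (FreeGroup.of 0) ^ 0 * thetaX i (FreeGroup.of none * y) =
          FreeGroup.of 0 * ((FreeGroup.of 0) ^ i * thetaX i y)
        rw [map_mul, thetaX_none, pow_zero, one_mul, pow_succ', mul_assoc]
    · change psiX n (rhoX n (FreeGroup.of 1) (i, y)) = FreeGroup.of 1 * psiX n (i, y)
      rw [rhoX_1, pB_apply]
      change (FreeGroup.of 0) ^ (i : ℕ) * thetaX n (FreeGroup.of (some i) * y) =
        FreeGroup.of 1 * ((FreeGroup.of 0) ^ (i : ℕ) * thetaX n y)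
      rw [map_mul, thetaX_some]
      group
  | inv_of x hx =>
    intro p
    change psiX n (rhoX n (FreeGroup.of x)⁻¹ p) = (FreeGroup.of x)⁻¹ * psiX n p
    have h := hx (rhoX n (FreeGroup.of x)⁻¹ p)
    have h2 : rhoX n (FreeGroup.of x) (rhoX n (FreeGroup.of x)⁻¹ p) = p := by
      rw [← Equiv.Perm.mul_apply, ← map_mul, mul_inv_cancel, map_one, Equiv.Perm.one_apply]
    have h3 : psiX n (rhoX n (FreeGroup.of x) (rhoX n (FreeGroup.of x)⁻¹ p)) =
      FreeGroup.of x * psiX n (rhoX n (FreeGroup.of x)⁻¹ p) := h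
    rw [h2] at h3
    rw [h3, inv_mul_cancel_left]
  | mul a b ha hb =>
    intro p
    rw [map_mul, Equiv.Perm.mul_apply, ha, hb, mul_assoc]

theorem rhoX_pow (x : FX n) (i : ℕ) : ∀ hi : i < n + 1,
    rhoX n ((FreeGroup.of 0) ^ i) (0, x) = (⟨i, hi⟩, x) := by
  induction i with
  | zero =>
    intro hi
    rw [pow_zero, map_one, Equiv.Perm.one_apply]
    rfl
  | succ i ih =>
    intro hi
    rw [pow_succ', map_mul, Equiv.Perm.mul_apply, ih (by omega), rhoX_0, pA_lt n i (by omega)]

theorem rhoX_theta (w : FX n) : ∀ x, rhoX n (thetaX n w) (0, x) = (0, w * x) := by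
  induction w using FreeGroup.induction_on with
  | C1 =>
    intro x
    rw [map_one, map_one, Equiv.Perm.one_apply, one_mul]
  | of o =>
    intro x
    change rhoX n (thetaX n (FreeGroup.of o)) (0, x) = (0, FreeGroup.of o * x)
    cases o with
    | none =>
      rw [thetaX_none, pow_succ', map_mul, Equiv.Perm.mul_apply, rhoX_pow n x n (by omega), rhoX_0]
      exact pA_last n x
    | some i =>
      rw [thetaX_some, map_mul, map_mul, map_inv, Equiv.Perm.mul_apply, Equiv.Perm.mul_apply,
        rhoX_pow n x i i.2, rhoX_1, pB_apply, Equiv.Perm.inv_def, Equiv.symm_apply_eq,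
        rhoX_pow n _ i i.2]
  | inv_of i hi =>
    intro x
    change rhoX n (thetaX n (FreeGroup.of i)⁻¹) (0, x) = (0, (FreeGroup.of i)⁻¹ * x)
    have h : rhoX n (thetaX n (FreeGroup.of i)) (0, (FreeGroup.of i)⁻¹ * x) =
      (0, FreeGroup.of i * ((FreeGroup.of i)⁻¹ * x)) := hi _
    rw [mul_inv_cancel_left] at h
    rw [map_inv, map_inv, Equiv.Perm.inv_def, Equiv.symm_apply_eq, h]
  | mul a b ha hb =>
    intro x
    rw [map_mul, map_mul, Equiv.Perm.mul_apply, hb, ha, mul_assoc]

theorem thetaX_inj : Function.Injective (thetaX n) := by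
  intro a b h
  have h1 := rhoX_theta n a 1
  rw [h, rhoX_theta n b 1, mul_one, mul_one] at h1
  exact (congrArg Prod.snd h1).symm

theorem thetaX_cov (g : FT) : ∃ (i : Fin (n + 1)) (x : FX n),
    g = (FreeGroup.of 0) ^ (i : ℕ) * thetaX n x := by
  refine ⟨(rhoX n g (0, 1)).1, (rhoX n g (0, 1)).2, ?_⟩
  have h1 := psiX_rho n g (0, 1)
  have h2 : psiX n (0, 1) = 1 := by
    change (FreeGroup.of 0) ^ 0 * thetaX n 1 = 1
    rw [map_one, mul_one, pow_zero]
  rw [h2, mul_one] at h1
  exact h1.symm

end

/-- the free group of rank `m + 1` is isomorphic to a normal subgroup of index `m` of the free group of rank two -/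
theorem free_sub (m : ℕ) (hm : 0 < m) : ∃ K : Subgroup (FreeGroup (Fin 2)), K.Normal ∧
    K.index = m ∧ Nonempty (FreeGroup (Fin (m + 1)) ≃* K) := by
  obtain ⟨n, rfl⟩ : ∃ n, m = n + 1 := ⟨m - 1, by omega⟩
  let χ : FT →* Multiplicative (ZMod (n + 1)) := FreeGroup.lift ![Multiplicative.ofAdd 1, 1]
  have h0 : χ (FreeGroup.of 0) = Multiplicative.ofAdd 1 := by
    change FreeGroup.lift ![Multiplicative.ofAdd 1, 1] (FreeGroup.of 0) = _
    rw [FreeGroup.lift_apply_of]
    rfl
  have h1 : χ (FreeGroup.of 1) = 1 := by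
    change FreeGroup.lift ![Multiplicative.ofAdd 1, 1] (FreeGroup.of 1) = _
    rw [FreeGroup.lift_apply_of]
    rfl
  have hpow : ∀ k : ℕ, χ ((FreeGroup.of 0) ^ k) = Multiplicative.ofAdd (k : ZMod (n + 1)) := by
    intro k
    rw [map_pow, h0, ← ofAdd_nsmul, nsmul_eq_mul, mul_one]
  have hr : χ.ker = (thetaX n).range := by
    apply le_antisymm
    · intro g hg
      obtain ⟨i, x, hgi⟩ := thetaX_cov n g
      have hx : χ (thetaX n x) = 1 := by
        have h2 : χ.comp (thetaX n) = 1 := by
          apply FreeGroup.ext_hom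
          intro o
          change χ (thetaX n (FreeGroup.of o)) = 1
          cases o with
          | none =>
            rw [thetaX_none, hpow, ZMod.natCast_self]
            rfl
          | some i =>
            rw [thetaX_some, map_mul, map_mul, map_inv, h1, mul_one, inv_mul_cancel]
        exact DFunLike.congr_fun h2 x
      have h3 : χ g = 1 := hg
      rw [hgi, map_mul, hx, mul_one, hpow] at h3
      have h4 : ((i : ℕ) : ZMod (n + 1)) = 0 := h3
      rw [ZMod.natCast_eq_zero_iff] at h4
      have h5 : (i : ℕ) = 0 := Nat.eq_zero_of_dvd_of_lt h4 i.2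
      rw [h5, pow_zero, one_mul] at hgi
      exact ⟨x, hgi.symm⟩
    · rintro _ ⟨x, rfl⟩
      have h2 : χ.comp (thetaX n) = 1 := by
        apply FreeGroup.ext_hom
        intro o
        change χ (thetaX n (FreeGroup.of o)) = 1
        cases o with
        | none =>
          rw [thetaX_none, hpow, ZMod.natCast_self]
          rfl
        | some i =>
          rw [thetaX_some, map_mul, map_mul, map_inv, h1, mul_one, inv_mul_cancel]
      exact DFunLike.congr_fun h2 x
  refine ⟨χ.ker, inferInstance, ?_, ⟨?_⟩⟩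
  · have hs : Function.Surjective χ := by
      intro z
      refine ⟨(FreeGroup.of 0) ^ (Multiplicative.toAdd z).val, ?_⟩
      rw [hpow, ZMod.natCast_zmod_val]
      rfl
    rw [Subgroup.index_ker, MonoidHom.range_eq_top.2 hs]
    rw [Subgroup.card_top, Nat.card_congr Multiplicative.toAdd, Nat.card_zmod]
  · rw [hr]
    exact (FreeGroup.freeGroupCongr (finSuccEquiv (n + 1))).trans
      (MonoidHom.ofInjective (thetaX_inj n))

end Pool.Agent.VFm
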