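import Pool.Agent.VFm.LemA
import Pool.Agent.VFm.FreeSub
import Pool.Agent.VFm.FPres
import Pool.Agent.Hhelper49.Srf.Final
import Pool.Agent.VFL.Res

/-!
# Module Gen: type (FF) and subgroups of finite index
-/

set_option linter.unusedSectionVars false

namespace Pool.Agent.VFm

open Pool.Agent.Hhelper49.Srr Pool.Agent.Hhelper49.Srf Pool.Agent.SFP
open Pool.Agent.VFL (StFreeOn stFreeOn_iff stFreeOn_pow)

/-- `G` and `H` are commensurable: they have isomorphic subgroups of finite index -/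
def Commens (G H : Type) [Group G] [Group H] : Prop :=
  ∃ (K : Subgroup G) (L : Subgroup H), K.FiniteIndex ∧ L.FiniteIndex ∧ Nonempty (K ≃* L)

/-- every finitely generated projective `ℤ[G]`-module whose restriction to `H` is stably free is stably free:
restriction from `G` to `H` is injective on reduced projective class groups -/
def ResInj (G : Type) [Group G] (H : Subgroup G) : Prop :=
  ∀ (P : Type) [AddCommGroup P] [Module (MonoidAlgebra ℤ G) P],
    Module.Finite (MonoidAlgebra ℤ G) P → Module.Projective (MonoidAlgebra ℤ G) P →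
      StFreeOn H P → StFree G P

/-- classes of groups: all groups, finitely presented groups -/
def Cls (C : ∀ (G : Type) [Group G], Prop) : Prop :=
  (∀ (G : Type) [Group G], C G) ∨ ∀ (G : Type) [Group G], C G ↔ Group.IsFinitelyPresented G

section
variable {C : ∀ (G : Type) [Group G], Prop} (hC : Cls C)
include hC

theorem Cls.real {G R : Type} [Group G] [Group R]
    (h : Group.IsFinitelyPresented G → Group.IsFinitelyPresented R) (hG : C G) : C R := by
  rcases hC with h1 | h1
  · exact h1 R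
  · rw [h1] at hG ⊢
    exact h hG

theorem Cls.sub (G : Type) [Group G] (H : Subgroup G) [H.FiniteIndex] (hG : C G) : C H :=
  hC.real (fun _ => fpres_sub G H) hG

theorem Cls.prod (G : Type) [Group G] (n : ℕ) (hG : C G) : C (G × FreeGroup (Fin n)) :=
  hC.real (fun _ => prod_fpres _ _) hG

end

/-- restriction for `G × F` -/
theorem resInj_of_prod (G : Type) [Group G] (H : Subgroup G) [H.FiniteIndex]
    (h : ResInj (G × FreeGroup (Fin 1)) (H.comap (MonoidHom.fst G (FreeGroup (Fin 1))))) :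
    ResInj G H := by
  intro P _ _ hP1 hP2 hPH
  set κ : G →* G × FreeGroup (Fin 1) := MonoidHom.inl G _ with hκd
  have hκ : Function.Injective κ := fun a b h => congrArg Prod.fst h
  obtain ⟨N, _, _, hN⟩ := exists_ind κ hκ P hP1 hP2
  obtain ⟨hN1, hN2⟩ := ind_proj hκ P N hN hP1 hP2
  have hfi : (H.comap (MonoidHom.fst G (FreeGroup (Fin 1)))).FiniteIndex :=
    fi_comap (MonoidHom.fst G (FreeGroup (Fin 1))) (fun g => ⟨(g, 1), rfl⟩) H
  obtain ⟨q1, q2⟩ := res_proj H P hP1 hP2
  obtain ⟨u1, u2⟩ := res_proj (H.comap (MonoidHom.fst G (FreeGroup (Fin 1)))) N hN1 hN2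
  let κ' : H →* H.comap (MonoidHom.fst G (FreeGroup (Fin 1))) :=
    (κ.comp H.subtype).codRestrict _ (fun x => by
      rw [Subgroup.mem_comap]
      exact x.2)
  have hκ' : Function.Injective κ' := by
    intro a b h
    have h1 := congrArg (fun z => ((z : G × FreeGroup (Fin 1))).1) (congrArg Subtype.val h)
    exact Subtype.ext h1
  have hM := ret_mackey κ (MonoidHom.fst G (FreeGroup (Fin 1))) (fun _ => rfl) H H.subtype
    (fun a ha => ⟨⟨a, ha⟩, rfl⟩) κ' (fun _ => rfl) hN
  have h1 : FF (ZG (H.comap (MonoidHom.fst G (FreeGroup (Fin 1)))))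
      (Pull (H.comap (MonoidHom.fst G (FreeGroup (Fin 1)))).subtype N) :=
    ind_ff hκ' _ _ hM ((ff_iff_stFree H _ q2).2 ((stFreeOn_iff H P).1 hPH))
  have h2 := h N hN1 hN2 ((stFreeOn_iff _ N).2 ((ff_iff_stFree _ _ u2).1 h1))
  exact (ff_iff_stFree G P hP2).1 (desc_ret κ (MonoidHom.fst G _) (fun _ => rfl) P N hP1 hP2 hN
    ((ff_iff_stFree _ N hN2).2 h2))

theorem ind_top {G : Type} [Group G] (P : Type) [AddCommGroup P] [Module (ZG G) P] :
    Induced (⊤ : Subgroup G).subtype (Pull (⊤ : Subgroup G).subtype P) P := by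
  refine ⟨AddMonoidHom.id P, AddMonoidHom.id P, ?_, ?_, ?_, ?_⟩
  · intro h m
    exact Pull.act_apply h m
  · intro n
    apply AddSubgroup.subset_closure
    exact ⟨1, n, (act_one n).symm⟩
  · intro h m
    exact (Pull.act_apply h m).symm
  · intro g m hg
    exact absurd ⟨⟨g, trivial⟩, rfl⟩ hg

/-- stably free over the whole group -/
theorem stFree_top {G : Type} [Group G] (P : Type) [AddCommGroup P] [Module (ZG G) P]
    (h1 : Module.Finite (ZG G) P) (h2 : Module.Projective (ZG G) P)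
    (h : StFree (⊤ : Subgroup G) (Pull (⊤ : Subgroup G).subtype P)) : StFree G P := by
  have hfi : (⊤ : Subgroup G).FiniteIndex := inferInstance
  obtain ⟨q1, q2⟩ := res_proj (⊤ : Subgroup G) P h1 h2
  exact (ff_iff_stFree G P h2).1 (ind_ff (Subgroup.subtype_injective _) _ _ (ind_top P)
    ((ff_iff_stFree _ _ q2).2 h))

/-- (FF) for overgroups gives injectivity of the restriction -/
theorem resInj_of_ext {C : ∀ (G : Type) [Group G], Prop} (hC : Cls C) (G : Type) [Group G]
    (hCG : C G) (hG : TypeFP G) (H : Subgroup G) [H.FiniteIndex]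
    (h : ∀ (R : Type) [Group R] (r : R →* G), Function.Surjective r → C R → TypeFP R →
      TypeFF (H.comap r) → TypeFF R) : ResInj G H := by
  intro P _ _ hP1 hP2 hPH
  obtain ⟨R, _, i, r, h1, h2, h3, h4⟩ := point_fpH G hG P hP1 hP2
  have h5 : FreeRes 1 (H.comap r) := (h4 H 1).2 ((stFree_one H _).2 ((stFreeOn_iff H P).1 hPH))
  have h6 := h R r (fun g => ⟨i g, h1 g⟩) (hC.real h3 hCG) h2 ((typeFF_iff _).2 h5)
  have h7 : FreeRes 1 ((⊤ : Subgroup G).comap r) :=
    freeRes_congr 1 _ _ (Subgroup.topEquiv.symm.trans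
      (MulEquiv.subgroupCongr (Subgroup.comap_top r).symm)) ((typeFF_iff _).1 h6)
  have h8 := (h4 ⊤ 1).1 h7
  rw [stFree_one] at h8
  exact stFree_top P hP1 hP2 h8

/-- the realisation theorem in its final form -/
theorem point_fpH' (G : Type) [Group G] (hG : TypeFP G) (P : Type) [AddCommGroup P]
    [Module (MonoidAlgebra ℤ G) P] (hP1 : Module.Finite (MonoidAlgebra ℤ G) P)
    (hP2 : Module.Projective (MonoidAlgebra ℤ G) P) :
    ∃ (R : Type) (_ : Group R) (i : G →* R) (r : R →* G), (∀ g, r (i g) = g) ∧ TypeFP R ∧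
      (Group.IsFinitelyPresented G → Group.IsFinitelyPresented R) ∧
      (TypeFF R ↔ StFree G P) ∧
      ∀ (H : Subgroup G) [H.FiniteIndex] (m : ℕ), FreeRes m (H.comap r) ↔
        StFreeOn H (Fin m → P) := by
  obtain ⟨R, _, i, r, h1, h2, h3, h4⟩ := point_fpH G hG P hP1 hP2
  refine ⟨R, inferInstance, i, r, h1, h2, h3, ?_, fun H _ m => (h4 H m).trans
    (stFreeOn_pow H P m).symm⟩
  have e : R ≃* (⊤ : Subgroup G).comap r :=
    Subgroup.topEquiv.symm.trans (MulEquiv.subgroupCongr (Subgroup.comap_top r).symm)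
  have hfi : (⊤ : Subgroup G).FiniteIndex := inferInstance
  obtain ⟨q1, q2⟩ := res_proj (⊤ : Subgroup G) P hP1 hP2
  constructor
  · intro h6
    have h8 := (h4 ⊤ 1).1 (freeRes_congr 1 _ _ e ((typeFF_iff _).1 h6))
    rw [stFree_one] at h8
    exact stFree_top P hP1 hP2 h8
  · intro h6
    have h7 : StFree (⊤ : Subgroup G) (Pull (⊤ : Subgroup G).subtype P) :=
      (ff_iff_stFree _ _ q2).1 (res_ff _ P ((ff_iff_stFree G P hP2).2 h6))
    have h8 := (h4 ⊤ 1).2 ((stFree_one _ _).2 h7)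
    exact (typeFF_iff _).2 (freeRes_congr 1 _ _ e.symm h8)

/-- one prime -/
theorem one_prime {C : ∀ (G : Type) [Group G], Prop} (hC : Cls C) (p : ℕ) (hp : p ≠ 0) :
    List.TFAE [
      ∀ (G : Type) [Group G], C G → TypeFP G → ∀ (N : Subgroup G) [N.Normal], N.index = p →
        TypeFF N → TypeFF G,
      ∀ (G : Type) [Group G], C G → TypeFP G → ∀ (N : Subgroup G) [N.Normal], N.index = p →
        ResInj G N,
      ∀ (G : Type) [Group G], C G → TypeFF G → ∀ (N : Subgroup G) [N.Normal], N.index = p →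
        ResInj G N] := by
  tfae_have 1 → 2 := by
    intro h G _ hCG hG N _ hN
    have hfi : N.FiniteIndex := ⟨by rw [hN]; exact hp⟩
    refine resInj_of_ext hC G hCG hG N ?_
    intro R _ r hr hCR hR hF
    exact h R hCR hR (N.comap r) (by rw [Subgroup.index_comap_of_surjective N hr, hN]) hF
  tfae_have 2 → 3 := by
    intro h G _ hCG hG
    exact h G hCG (typeFP_of_fp G (fp_of_ff (ff_of_typeFF G hG)))
  tfae_have 3 → 2 := by
    intro h G _ hCG hG N _ hN
    have hfi : N.FiniteIndex := ⟨by rw [hN]; exact hp⟩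
    refine resInj_of_prod G N (h _ (hC.prod G 1 hCG) (typeFF_prod G hG) _ ?_)
    rw [Subgroup.index_comap_of_surjective N (fun g => ⟨(g, 1), rfl⟩), hN]
  tfae_have 2 → 1 := by
    intro h G _ hCG hG N _ hN hF
    have hfi : N.FiniteIndex := ⟨by rw [hN]; exact hp⟩
    exact typeFF_of_res hG N (fun P _ _ h1 h2 h3 => h G hCG hG N hN P h1 h2
      ((stFreeOn_iff N P).2 h3)) hF
  tfae_finish

/-- all subgroups of finite index -/
theorem all_primes {C : ∀ (G : Type) [Group G], Prop} (hC : Cls C) :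
    List.TFAE [
      ∀ (G H : Type) [Group G] [Group H], C G → C H → TypeFP G → TypeFP H → Commens G H →
        TypeFF G → TypeFF H,
      ∀ (G : Type) [Group G], C G → TypeFP G → ∀ (H : Subgroup G) [H.FiniteIndex],
        TypeFF H → TypeFF G,
      ∀ (G : Type) [Group G], C G → TypeFP G → ∀ (N : Subgroup G) [N.Normal], N.index.Prime →
        TypeFF N → TypeFF G,
      ∀ (G : Type) [Group G], C G → TypeFP G → ∀ (H : Subgroup G) [H.FiniteIndex], ResInj G H,
      ∀ (G : Type) [Group G], C G → TypeFF G → ∀ (N : Subgroup G) [N.Normal], N.index.Prime →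
        ResInj G N] := by
  tfae_have 1 → 2 := by
    intro h G _ hCG hG H _ hF
    refine h H G (hC.sub G H hCG) hCG (typeFP_subgroup G hG H) hG ?_ hF
    exact ⟨⊤, H, inferInstance, inferInstance, ⟨Subgroup.topEquiv⟩⟩
  tfae_have 2 → 1 := by
    rintro h G H _ _ hCG hCH hG hH ⟨K, L, hK, hL, ⟨e⟩⟩ hF
    exact h H hCH hH L (typeFF_congr e (typeFF_res K hF))
  tfae_have 2 → 4 := by
    intro h G _ hCG hG H _
    refine resInj_of_ext hC G hCG hG H ?_
    intro R _ r hr hCR hR hF
    have hfi : (H.comap r).FiniteIndex := fi_comap r hr H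
    exact h R hCR hR (H.comap r) hF
  tfae_have 4 → 5 := by
    intro h G _ hCG hG N _ hN
    have hfi : N.FiniteIndex := ⟨hN.ne_zero⟩
    exact h G hCG (typeFP_of_fp G (fp_of_ff (ff_of_typeFF G hG))) N
  tfae_have 5 → 3 := by
    intro h G _ hCG hG N _ hN hF
    have h1 := (one_prime hC N.index hN.ne_zero).out 2 0
    exact h1.1 (fun G _ hCG hG N' _ hN' => h G hCG hG N' (by rw [hN']; exact hN)) G hCG hG N rfl hF
  tfae_have 3 → 2 := by
    intro h G _ hCG hG H _ hF
    exact fi_of_prime (fun G _ H _ => hC.sub G H) h G hCG hG H hF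
  tfae_finish

/-- products with free groups -/
theorem freeRes_mul {G : Type} [Group G] (hG : TypeFP G) (K : Subgroup (FreeGroup (Fin 2)))
    {m : ℕ} (e : FreeGroup (Fin (m + 1)) ≃* K)
    (h : TypeFF (K.comap (MonoidHom.snd G (FreeGroup (Fin 2)))) → TypeFF (G × FreeGroup (Fin 2)))
    (hm : FreeRes m G) : TypeFF G := by
  have h1 : FreeRes 1 (G × FreeGroup (Fin (m + 1))) := by
    rw [prod_freeRes G hG m 1, one_mul]
    exact hm
  let e1 : G × FreeGroup (Fin (m + 1)) ≃* K.comap (MonoidHom.snd G (FreeGroup (Fin 2))) :=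
    ((MulEquiv.refl G).prodCongr e).trans
      { toFun := fun x => ⟨(x.1, x.2), x.2.2⟩
        invFun := fun x => (x.1.1, ⟨x.1.2, x.2⟩)
        left_inv := fun _ => rfl
        right_inv := fun _ => rfl
        map_mul' := fun _ _ => rfl }
  have h2 := h (typeFF_congr e1 ((typeFF_iff _).2 h1))
  have h3 := (prod_freeRes G hG 1 1).1 ((typeFF_iff _).1 h2)
  exact (typeFF_iff G).2 h3

/-- torsion in the class groups -/
theorem no_torsion {C : ∀ (G : Type) [Group G], Prop} (hC : Cls C) (m : ℕ) (hm : 0 < m)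
    (h : ∀ (G : Type) [Group G], C G → TypeFP G → ∀ (N : Subgroup G) [N.Normal], N.index = m →
      TypeFF N → TypeFF G) (G : Type) [Group G] (hCG : C G) (hG : TypeFP G) :
    (FreeRes m G → TypeFF G) ∧ ∀ (P : Type) [AddCommGroup P] [Module (MonoidAlgebra ℤ G) P],
      Module.Finite (MonoidAlgebra ℤ G) P → Module.Projective (MonoidAlgebra ℤ G) P →
        StFree G (Fin m → P) → StFree G P := by
  obtain ⟨K, hK1, hK2, ⟨e⟩⟩ := free_sub m hm
  have key : ∀ (G : Type) [Group G], C G → TypeFP G → FreeRes m G → TypeFF G := by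
    intro G _ hCG hG hF
    refine freeRes_mul hG K e ?_ hF
    intro h1
    refine h _ (hC.prod G 2 hCG) (prod_fp G hG 2) _ ?_ h1
    rw [Subgroup.index_comap_of_surjective K (fun g => ⟨(1, g), rfl⟩), hK2]
  refine ⟨key G hCG hG, ?_⟩
  intro P _ _ h1 h2 h3
  obtain ⟨R, _, i, r, k1, k2, k3, k4⟩ := point_fp2 G hG P h1 h2
  have h5 := key R (hC.real k4 hCG) k2 ((k3 m).2 h3)
  rw [typeFF_iff, k3, stFree_one] at h5
  exact h5

/-- the rational half of Serre's question -/
theorem rat_tfae' :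
    List.TFAE [
      ∀ (G : Type) [Group G], TypeFP G → ∀ (P : Type) [AddCommGroup P]
        [Module (MonoidAlgebra ℤ G) P], Module.Finite (MonoidAlgebra ℤ G) P →
          Module.Projective (MonoidAlgebra ℤ G) P → ∃ m : ℕ, 0 < m ∧ StFree G (Fin m → P),
      ∀ (G : Type) [Group G], TypeFP G → (∀ H : Subgroup G, H.FiniteIndex → H = ⊤) →
        ∃ m : ℕ, 0 < m ∧ FreeRes m G,
      ∀ (G : Type) [Group G], TypeFP G →
        ∃ H : Subgroup (G × FreeGroup (Fin 2)), H.FiniteIndex ∧ TypeFF H] := by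
  tfae_have 1 → 3 := by
    intro h
    have h4 : Pool.Agent.VFL.Rat := by
      intro G _ hG P _ _ h1 h2
      obtain ⟨m, hm, h3⟩ := h G hG P h1 h2
      exact ⟨m, hm.ne', h3⟩
    exact (Pool.Agent.VFL.rat_tfae.out 0 2).1 h4
  tfae_have 3 → 2 := by
    intro h G _ hG _
    obtain ⟨m, hm, h3⟩ := Pool.Agent.VFL.exists_pow_of_ratFi h G hG
    exact ⟨m, Nat.pos_of_ne_zero hm, h3⟩
  tfae_have 2 → 1 := by
    intro h G _ hG P _ _ h1 h2
    obtain ⟨R, _, i, r, k1, k2, k3, k4⟩ := point_fp2 G hG P h1 h2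
    obtain ⟨Γ, _, j, -, l2, l3, l4⟩ := embed R k2
    obtain ⟨m, hm, hF⟩ := h Γ l2 l4
    exact ⟨m, hm, (k3 m).1 ((l3 m).1 hF)⟩
  tfae_finish

/-- the two halves of Serre's question -/
theorem serre_split' :
    (∀ (G : Type) [Group G], TypeFP G → TypeFF G) ↔
      (∀ (G : Type) [Group G], TypeFP G → ∀ (H : Subgroup G) [H.FiniteIndex],
        TypeFF H → TypeFF G) ∧
      ∀ (G : Type) [Group G], TypeFP G → ∀ (P : Type) [AddCommGroup P]
        [Module (MonoidAlgebra ℤ G) P], Module.Finite (MonoidAlgebra ℤ G) P →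
          Module.Projective (MonoidAlgebra ℤ G) P → ∃ m : ℕ, 0 < m ∧ StFree G (Fin m → P) := by
  constructor
  · intro h
    refine ⟨fun G _ hG _ _ _ => h G hG, (rat_tfae'.out 1 0).1 ?_⟩
    exact fun G _ hG _ => ⟨1, Nat.one_pos, freeRes_of_typeFF G (h G hG)⟩
  · rintro ⟨h1, h2⟩ G _ hG
    obtain ⟨Γ, _, j, -, k2, k3, k4⟩ := embed G hG
    have h5 : ∀ (G : Type) [Group G], TypeFP G → (∀ H : Subgroup G, H.FiniteIndex → H = ⊤) →
        ∃ m : ℕ, 0 < m ∧ FreeRes m G := (rat_tfae'.out 0 1).1 h2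
    obtain ⟨m, hm, hF⟩ := h5 Γ k2 k4
    refine (no_torsion (C := fun _ _ => True) (Or.inl fun _ _ => trivial) m hm ?_ G trivial hG).1
      ((k3 m).1 hF)
    intro G _ _ hG N _ hN hF
    have hfi : N.FiniteIndex := ⟨by rw [hN]; exact hm.ne'⟩
    exact h1 G hG N hF

end Pool.Agent.VFm
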