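import Pool.Agent.VFm.Real2
import Pool.Agent.Hhelper49.Srr.Final

/-!
# Module LemA: descent of type (FF) through one subgroup, and chains of subgroups of prime index
-/

set_option linter.unusedSectionVars false

namespace Pool.Agent.VFm

open Pool.Agent.Hhelper49.Srr Pool.Agent.Hhelper49.Srf Pool.Agent.SFP

/-- if modules over `ℤ[G]` which become stably free over `ℤ[H]` are stably free, (FF) descends -/
theorem ff_of_res {G : Type} [Group G] (H : Subgroup G) [H.FiniteIndex]
    (h : ∀ (P : Type) [AddCommGroup P] [Module (MonoidAlgebra ℤ G) P],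
      Module.Finite (MonoidAlgebra ℤ G) P → Module.Projective (MonoidAlgebra ℤ G) P →
        StFree H (Pull H.subtype P) → StFree G P) (n : ℕ) :
    ∀ (M : Type) [AddCommGroup M] [Module (ZG G) M], FPl (ZG G) n M →
      FF (ZG H) (Pull H.subtype M) → FF (ZG G) M := by
  induction n with
  | zero =>
    intro M _ _ hM hF
    obtain ⟨q1, q2⟩ := res_proj H M hM.1 hM.2
    exact (ff_iff_stFree G M hM.2).2 (h M hM.1 hM.2 ((ff_iff_stFree H _ q2).1 hF))
  | succ n ih =>
    intro M _ _ hM hF
    obtain ⟨k, f, hf, hk⟩ := hM
    have h1 : FF (ZG H) (Pull H.subtype (LinearMap.ker f)) :=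
      (cls23_pull H.subtype (cls23_ff (ZG H))).ker (LinearMap.ker f).subtype f
        (Submodule.injective_subtype _) hf (Submodule.range_subtype _) (res_ff_free H k) hF
    exact ff_coker (LinearMap.ker f).subtype f (Submodule.injective_subtype _) hf
      (Submodule.range_subtype _) (ih _ hk h1) (ff_pow k)

/-- descent of type (FF) -/
theorem typeFF_of_res {G : Type} [Group G] (hG : TypeFP G) (H : Subgroup G) [H.FiniteIndex]
    (h : ∀ (P : Type) [AddCommGroup P] [Module (MonoidAlgebra ℤ G) P],
      Module.Finite (MonoidAlgebra ℤ G) P → Module.Projective (MonoidAlgebra ℤ G) P →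
        StFree H (Pull H.subtype P) → StFree G P) (hH : TypeFF H) : TypeFF G := by
  obtain ⟨n, hn⟩ := fp_of_typeFP G hG
  refine typeFF_of_ff G (ff_of_res H h n _ hn ?_)
  exact ff_iso (trivPull H.subtype).symm (ff_of_typeFF H hH)

/-- a nontrivial finite solvable group has a normal subgroup of prime index -/
theorem exists_prime_index (S : Type) [Group S] [Finite S] [Nontrivial S] [Group.IsSolvable S] :
    ∃ M : Subgroup S, M.Normal ∧ M.index.Prime := by
  have h1 : commutator S ≠ ⊤ := by
    have h2 := Group.IsSolvable.commutator_lt_top_of_nontrivial S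
    exact h2.ne
  obtain ⟨M, hM, hle⟩ := (eq_top_or_exists_le_coatom (commutator S)).resolve_left h1
  have hn : M.Normal := by
    refine ⟨fun m hm g => ?_⟩
    have h3 : g * m * g⁻¹ * m⁻¹ ∈ M := by
      apply hle
      rw [← commutatorElement_def]
      exact Subgroup.commutator_mem_commutator (Subgroup.mem_top g) (Subgroup.mem_top m)
    have h4 := M.mul_mem h3 hm
    rwa [inv_mul_cancel_right] at h4
  refine ⟨M, hn, ?_⟩
  let _ : CommGroup (S ⧸ M) :=
    { (inferInstance : Group (S ⧸ M)) with
      mul_comm := by
        intro a b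
        obtain ⟨a, rfl⟩ := QuotientGroup.mk'_surjective M a
        obtain ⟨b, rfl⟩ := QuotientGroup.mk'_surjective M b
        rw [← map_mul, ← map_mul]
        refine QuotientGroup.eq.2 (hle ?_)
        have h5 : (a * b)⁻¹ * (b * a) = b⁻¹ * a⁻¹ * (b⁻¹)⁻¹ * (a⁻¹)⁻¹ := by
          group
        rw [h5, ← commutatorElement_def]
        exact Subgroup.commutator_mem_commutator (Subgroup.mem_top _) (Subgroup.mem_top _) }
  have hnt : Nontrivial (S ⧸ M) := by
    by_contra hcon
    rw [not_nontrivial_iff_subsingleton] at hcon
    apply hM.1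
    rw [← Subgroup.index_eq_one, Subgroup.index_eq_card]
    exact Nat.card_of_subsingleton 1
  have hs : IsSimpleGroup (S ⧸ M) := by
    refine ⟨fun K _ => ?_⟩
    have h6 : M ≤ K.comap (QuotientGroup.mk' M) := by
      intro x hx
      rw [Subgroup.mem_comap]
      have h7 : QuotientGroup.mk' M x = 1 := (QuotientGroup.eq_one_iff x).2 hx
      rw [h7]
      exact K.one_mem
    have h8 : K.map (MonoidHom.id _) = (K.comap (QuotientGroup.mk' M)).map (QuotientGroup.mk' M) := by
      rw [Subgroup.map_comap_eq_self_of_surjective (QuotientGroup.mk'_surjective M), Subgroup.map_id]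
    rw [Subgroup.map_id] at h8
    rcases h6.eq_or_lt with h9 | h9
    · left
      rw [h8, ← h9]
      rw [eq_bot_iff]
      rintro _ ⟨x, hx, rfl⟩
      exact (QuotientGroup.eq_one_iff x).2 hx
    · right
      have h10 := hM.2 _ h9
      rw [h8, h10, ← MonoidHom.range_eq_map]
      exact MonoidHom.range_eq_top.2 (QuotientGroup.mk'_surjective M)
  have h11 := IsSimpleGroup.prime_card (α := S ⧸ M)
  rwa [← Subgroup.index_eq_card] at h11

/-- descent of type (FF) along homomorphisms to finite solvable groups -/
theorem chain {C : ∀ (G : Type) [Group G], Prop}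
    (hC : ∀ (G : Type) [Group G] (H : Subgroup G) [H.FiniteIndex], C G → C H)
    (hb : ∀ (G : Type) [Group G], C G → TypeFP G → ∀ (N : Subgroup G) [N.Normal],
      N.index.Prime → TypeFF N → TypeFF G) (n : ℕ) : ∀ (S : Type) [Group S] [Finite S]
    [Group.IsSolvable S] (G : Type) [Group G] (f : G →* S), f.ker.index = n → C G → TypeFP G →
      TypeFF f.ker → TypeFF G := by
  induction n using Nat.strong_induction_on with
  | _ n ih =>
    intro S _ _ _ G _ f hn hCG hG hF
    by_cases h1 : f.ker.index = 1
    · have h2 : f.ker = ⊤ := Subgroup.index_eq_one.1 h1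
      rw [h2] at hF
      exact typeFF_congr Subgroup.topEquiv hF
    have hS : Nontrivial f.range := by
      by_contra hcon
      rw [not_nontrivial_iff_subsingleton] at hcon
      apply h1
      rw [Subgroup.index_ker]
      exact Nat.card_of_subsingleton 1
    obtain ⟨M, hM, hp⟩ := exists_prime_index f.range
    have hsurj : Function.Surjective f.rangeRestrict := f.rangeRestrict_surjective
    have hidx : (M.comap f.rangeRestrict).index = M.index :=
      Subgroup.index_comap_of_surjective M hsurj
    have hle : f.ker ≤ M.comap f.rangeRestrict := by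
      intro x hx
      rw [Subgroup.mem_comap]
      have h3 : f.rangeRestrict x = 1 := Subtype.ext hx
      rw [h3]
      exact M.one_mem
    have hfi : (M.comap f.rangeRestrict).FiniteIndex := by
      refine ⟨?_⟩
      rw [hidx]
      exact hp.ne_zero
    refine hb G hCG hG (M.comap f.rangeRestrict) (by rw [hidx]; exact hp) ?_
    have hker : (f.comp (M.comap f.rangeRestrict).subtype).ker =
        f.ker.subgroupOf (M.comap f.rangeRestrict) := rfl
    have hmul := Subgroup.relIndex_mul_index hle
    have hfin : f.ker.index ≠ 0 := by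
      rw [Subgroup.index_ker]
      exact Nat.card_pos.ne'
    refine ih _ ?_ S _ (f.comp (M.comap f.rangeRestrict).subtype) rfl (hC G _ hCG)
      (typeFP_subgroup G hG _) ?_
    · rw [hker]
      change f.ker.relIndex (M.comap f.rangeRestrict) < n
      rw [← hn, ← hmul, hidx]
      have h4 : 0 < f.ker.relIndex (M.comap f.rangeRestrict) := by
        apply Nat.pos_of_ne_zero
        intro h5
        rw [h5, zero_mul] at hmul
        exact hfin hmul.symm
      have h6 := hp.one_lt
      nlinarith
    · rw [hker]
      exact typeFF_congr (Subgroup.subgroupOfEquivOfLe hle).symm hF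

/-- hyperelementary groups are solvable -/
theorem solvable_of_isHyp {p : ℕ} (hp : p.Prime) {Q : Type} [Group Q] [Finite Q] (E : Subgroup Q)
    (h : IsHyp p E) : Group.IsSolvable E := by
  obtain ⟨C, hCE, hC, hcyc, hcop, k, hk⟩ := h
  have hn : (C.subgroupOf E).Normal := by
    refine ⟨fun c hc g => ?_⟩
    exact hC g g.2 c hc
  have : Fact p.Prime := ⟨hp⟩
  have h1 : Group.IsSolvable (C.subgroupOf E) := by
    have h2 : IsCyclic (C.subgroupOf E) :=
      (Subgroup.subgroupOfEquivOfLe hCE).isCyclic.2 hcyc
    let _ : CommGroup (C.subgroupOf E) := IsCyclic.commGroup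
    infer_instance
  have h3 : Group.IsSolvable (E ⧸ C.subgroupOf E) := by
    have h4 : IsPGroup p (E ⧸ C.subgroupOf E) := by
      refine IsPGroup.of_card (n := k) ?_
      have h5 := (C.subgroupOf E).card_mul_index
      rw [Nat.card_congr (Subgroup.subgroupOfEquivOfLe hCE).toEquiv, hk] at h5
      have h6 : (C.subgroupOf E).index = p ^ k := Nat.eq_of_mul_eq_mul_left Nat.card_pos h5
      rw [← h6, Subgroup.index_eq_card]
    have h7 := h4.isNilpotent
    infer_instance
  refine Group.isSolvable_of_ker_le_range (C.subgroupOf E).subtype (QuotientGroup.mk' (C.subgroupOf E)) ?_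
  rw [QuotientGroup.ker_mk', Subgroup.range_subtype]

/-- from normal subgroups of prime index to all subgroups of finite index -/
theorem fi_of_prime {C : ∀ (G : Type) [Group G], Prop}
    (hC : ∀ (G : Type) [Group G] (H : Subgroup G) [H.FiniteIndex], C G → C H)
    (hb : ∀ (G : Type) [Group G], C G → TypeFP G → ∀ (N : Subgroup G) [N.Normal],
      N.index.Prime → TypeFF N → TypeFF G) (G : Type) [Group G] (hCG : C G) (hG : TypeFP G)
    (H : Subgroup G) [H.FiniteIndex] (hH : TypeFF H) : TypeFF G := by
  have hK : TypeFF H.normalCore := by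
    have h1 : TypeFF (H.normalCore.subgroupOf H) := typeFF_res _ hH
    exact typeFF_congr (Subgroup.subgroupOfEquivOfLe H.normalCore_le) h1
  by_contra hcon
  obtain ⟨p, hp, h⟩ := final G hG hcon
  obtain ⟨E, hE, hm⟩ := h (G ⧸ H.normalCore) (QuotientGroup.mk' H.normalCore)
  have hsol := solvable_of_isHyp hp E hE
  have hfi : (E.comap (QuotientGroup.mk' H.normalCore)).FiniteIndex :=
    fi_comap _ (QuotientGroup.mk'_surjective _) E
  apply hm 1 (Nat.coprime_one_left p)
  rw [← typeFF_iff]
  have hle : H.normalCore ≤ E.comap (QuotientGroup.mk' H.normalCore) := by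
    intro x hx
    rw [Subgroup.mem_comap]
    have h7 : QuotientGroup.mk' H.normalCore x = 1 := (QuotientGroup.eq_one_iff x).2 hx
    rw [h7]
    exact E.one_mem
  let f : E.comap (QuotientGroup.mk' H.normalCore) →* E :=
    ((QuotientGroup.mk' H.normalCore).comp
      (E.comap (QuotientGroup.mk' H.normalCore)).subtype).codRestrict E (fun x => x.2)
  have hker : f.ker = H.normalCore.subgroupOf (E.comap (QuotientGroup.mk' H.normalCore)) := by
    ext x
    rw [MonoidHom.mem_ker, Subgroup.mem_subgroupOf]
    constructor
    · intro hx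
      exact (QuotientGroup.eq_one_iff _).1 (congrArg Subtype.val hx)
    · intro hx
      exact Subtype.ext ((QuotientGroup.eq_one_iff _).2 hx)
  refine chain hC hb _ E _ f rfl (hC G _ hCG) (typeFP_subgroup G hG _) ?_
  rw [hker]
  exact typeFF_congr (Subgroup.subgroupOfEquivOfLe hle).symm hK

end Pool.Agent.VFm
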