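import Pool.Agent.VFm.Res

/-!
# Module Real: the realisation theorem, compatible with all subgroups of finite index
-/

set_option linter.unusedSectionVars false

namespace Pool.Agent.VFm

open Pool.Agent.Hhelper49.Srr Pool.Agent.Hhelper49.Srf Pool.Agent.SFP

/-- Mackey for a retraction -/
theorem ret_mackey {Q Γ Q' M N : Type} [Group Q] [Group Γ] [Group Q'] [AddCommGroup M]
    [Module (MonoidAlgebra ℤ Q) M] [AddCommGroup N] [Module (MonoidAlgebra ℤ Γ) N]
    (κ : Q →* Γ) (r : Γ →* Q) (hr : ∀ a, r (κ a) = a) (K : Subgroup Q) (j : Q' →* Q)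
    (hj : ∀ a ∈ K, ∃ x, j x = a) (κ' : Q' →* K.comap r)
    (hκ' : ∀ x, ((κ' x : K.comap r) : Γ) = κ (j x)) (h : Induced κ M N) :
    Induced κ' (Pull j M) (Pull (K.comap r).subtype N) := by
  refine ind_mackey κ (K.comap r).subtype κ' j hκ' ?_ ?_ h
  · intro g
    refine ⟨⟨g * (κ (r g))⁻¹, ?_⟩, r g, ?_⟩
    · rw [Subgroup.mem_comap, map_mul, map_inv, hr, mul_inv_cancel]
      exact K.one_mem
    · change g = g * (κ (r g))⁻¹ * κ (r g)
      rw [inv_mul_cancel_right]
  · rintro ⟨g, hg⟩ ⟨a, ha⟩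
    change κ a = g at ha
    subst ha
    rw [Subgroup.mem_comap, hr] at hg
    obtain ⟨x, rfl⟩ := hj a hg
    exact ⟨x, Subtype.ext (hκ' x)⟩

theorem fi_comap {G G' : Type} [Group G] [Group G'] (f : G' →* G) (hf : Function.Surjective f)
    (H : Subgroup G) [H.FiniteIndex] : (H.comap f).FiniteIndex := by
  refine ⟨?_⟩
  rw [Subgroup.index_comap_of_surjective H hf]
  exact Subgroup.FiniteIndex.index_ne_zero

/-- `FreeRes` of a subgroup through a restricted trivial module -/
theorem freeRes_sub {Γ : Type} [Group Γ] (K : Subgroup Γ) (m : ℕ) :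
    FreeRes m K ↔ FF (ZG K) (Fin m → Pull K.subtype (Triv Γ)) := by
  rw [freeRes_iff]
  exact ⟨fun h => ff_iso (LinearEquiv.piCongrRight fun _ => (trivPull K.subtype).symm) h,
    fun h => ff_iso (LinearEquiv.piCongrRight fun _ => trivPull K.subtype) h⟩

section
variable {G : Type} [Group G] {Gm Rl Sl : Type} [Fintype Gm] [DecidableEq Gm] [Fintype Rl]
  [DecidableEq Rl] [Fintype Sl] [DecidableEq Sl] (D : Dat (G × Multiplicative ℤ) Gm Rl Sl)
  (H : Subgroup G)

/-- the preimage of `H` in `G × F₂` -/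
abbrev KH : Subgroup (G × F2) := H.comap (MonoidHom.fst G F2)

/-- `H × F₂ → G × F₂` -/
abbrev jH : H × F2 →* G × F2 := H.subtype.prodMap (MonoidHom.id F2)

/-- `H × F₂` in the preimage of `H` in the fibre product -/
def kH : H × F2 →* (KH H).comap (rG2 D) :=
  ((kG2 D).comp (jH H)).codRestrict ((KH H).comap (rG2 D)) (by
    intro x
    rw [Subgroup.mem_comap, MonoidHom.comp_apply, rG2_kG2]
    exact x.1.2)

theorem kH_val (x : H × F2) : ((kH D H x : (KH H).comap (rG2 D)) : Fib (ch D)) = kG2 D (jH H x) :=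
  rfl

/-- the retraction to `H × F₂` -/
def rH : (KH H).comap (rG2 D) →* H × F2 where
  toFun x := (⟨(rG2 D x.1).1, x.2⟩, (rG2 D x.1).2)
  map_one' := by
    apply Prod.ext
    · apply Subtype.ext
      change (rG2 D 1).1 = 1
      rw [map_one]
      rfl
    · change (rG2 D 1).2 = 1
      rw [map_one]
      rfl
  map_mul' x y := by
    apply Prod.ext
    · apply Subtype.ext
      change (rG2 D (x.1 * y.1)).1 = (rG2 D x.1).1 * (rG2 D y.1).1
      rw [map_mul]
      rfl
    · change (rG2 D (x.1 * y.1)).2 = (rG2 D x.1).2 * (rG2 D y.1).2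
      rw [map_mul]
      rfl

theorem rH_kH (x : H × F2) : rH D H (kH D H x) = x := by
  have h1 : rG2 D (kG2 D (jH H x)) = jH H x := rG2_kG2 D _
  apply Prod.ext
  · apply Subtype.ext
    change (rG2 D (kG2 D (jH H x))).1 = (x.1 : G)
    rw [h1]
    rfl
  · change (rG2 D (kG2 D (jH H x))).2 = x.2
    rw [h1]
    rfl

theorem kH_inj : Function.Injective (kH D H) := by
  intro a b h
  have h1 := congrArg (rH D H) h
  rwa [rH_kH, rH_kH] at h1

/-- the restricted class -/
theorem cls_sub {Γ : Type} [Group Γ] (K : Subgroup Γ) (m : ℕ) :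
    Cls23 (ZG Γ) (fun M _ _ => FF (ZG K) (Fin m → Pull K.subtype M)) :=
  cls23_pull K.subtype (cls23_pow (cls23_ff (ZG K)) m)

end

/-- the pointwise theorem for groups of type (FF), with finite presentations, compatible with all subgroups of finite index -/
theorem point_ffH (G : Type) [Group G] (hG : TypeFF G) (P : Type) [AddCommGroup P]
    [Module (MonoidAlgebra ℤ G) P] (hP1 : Module.Finite (MonoidAlgebra ℤ G) P)
    (hP2 : Module.Projective (MonoidAlgebra ℤ G) P) :
    ∃ (R : Type) (_ : Group R) (i : G →* R) (r : R →* G), (∀ g, r (i g) = g) ∧ TypeFP R ∧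
      (Group.IsFinitelyPresented G → Group.IsFinitelyPresented R) ∧
      ∀ (H : Subgroup G) [H.FiniteIndex] (m : ℕ), FreeRes m (H.comap r) ↔
        FF (ZG H) (Fin m → Pull H.subtype P) := by
  obtain ⟨n, f, hf⟩ := Module.Finite.exists_fin' (MonoidAlgebra ℤ G) P
  obtain ⟨s, hs⟩ := Module.projective_lifting_property f LinearMap.id hf
  have hfs : ∀ p, f (s p) = p := fun p => LinearMap.congr_fun hs p
  obtain ⟨Gm, Rl, Sl, _, _, _, _, _, _, D, hD⟩ := enc n (matA f s)
  obtain ⟨hD1, ⟨e⟩⟩ := hD (ZG (HH D)) (phi D)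
  have hinj : Function.Injective (relM (phi D) D) :=
    hD1 (mulA_inj (hq D) (chi D (sndG G)) (chi_hq D) f s hfs)
  have hPF : FP (MonoidAlgebra ℤ G) P := ⟨0, hP1, hP2⟩
  have hGF := ff_of_typeFF G hG
  -- the kernel is of type (FP), hence finitely generated
  have hfg : Group.FG (ch D).ker := by
    have hbase : Induced (inc D) (Triv G)
        (Pull (chi D (sndG G)).ker.subtype (ZG (HH D) ⧸ JL D ∅)) := by
      refine base_ind (hq D) (chi D (sndG G)) (chi_hq D) (JL D ∅) ?_
      rw [JL]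
      congr 1
      ext b
      simp
    have hU : Induced (inc D) P (Pull (chi D (sndG G)).ker.subtype ((Fin n → ZG (HH D)) ⧸
        LinearMap.range (mulA (phi D) (matA f s)))) :=
      u_ind (hq D) (hq_inj D) (chi D (sndG G)) (chi_hq D) f s hfs
    have hFP := main2 D (cls23_fp _) (fp_of_ff ⟨0, inferInstance, inferInstance⟩)
      (ind_fp (inc_inj D) _ _ hbase (fp_of_ff hGF)) hinj
    have eP := (cls23_pull (chi D (sndG G)).ker.subtype (cls23_fp (ZG (RR D))))
    apply fg_of_typeFP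
    apply typeFP_of_fp
    rw [hFP]
    exact eP.iso e.symm (ind_fp (inc_inj D) _ _ hU hPF)
  -- the module of the relations
  have hU2 : Induced (kG2 D) (Pull (MonoidHom.fst G F2) P) (Pull (prH (ch D))
      ((Fin n → ZG (HH D)) ⧸ LinearMap.range (mulA (phi D) (matA f s)))) := by
    have h1 := kf_ind (ch D) (hq D) ((MonoidHom.id G).prodMap chi2) (MonoidHom.snd G F2)
      (fun x => chi_hq D _) (kG2_hp D) (u_ind0 (hq D) (hq_inj D) f s hfs)
    exact ind_iso _ _ _ _ h1 (pullPull _ _ _ (fun _ => rfl) P) (LinearEquiv.refl _ _)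
  have hFP2 := main3 D (cls23_fp _)
    (fun u hu => ind_fp (kU_inj D u hu) _ _ (kU_ind D u hu) (fp_of_ff ff_trivF2))
    (ind_fp (kG2_inj D) _ _ (kG2_base D) (fp_of_ff (ff_trivProd G hG))) hinj
  have eP2 := (cls23_pull (prH (ch D)) (cls23_fp (ZG (Fib (ch D)))))
  refine ⟨Fib (ch D), inferInstance, (kG2 D).comp (MonoidHom.inl G F2),
    (MonoidHom.fst G F2).comp (rG2 D), ?_, ?_, ?_, ?_⟩
  · intro g
    change (rG2 D (kG2 D (g, 1))).1 = g
    rw [rG2_kG2]
  · apply typeFP_of_fp
    rw [hFP2]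
    exact eP2.iso e.symm (ind_fp (kG2_inj D) _ _ hU2 (coef_fp G P hPF))
  · intro hGp
    have : Group.IsFinitelyPresented (G × Multiplicative ℤ) := prod_fpres _ _
    have : Group.IsFinitelyPresented (HH D) := hh_fpres D
    exact fib_fpres (ch D) (hq D (1, Multiplicative.ofAdd 1)) (by rw [chi_hq]) hfg
  · intro H hH m
    have hsurj : Function.Surjective (rG2 D) := fun x => ⟨kG2 D x, rG2_kG2 D x⟩
    have hKH : (KH H).FiniteIndex := fi_comap (MonoidHom.fst G F2) (fun g => ⟨(g, 1), rfl⟩) H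
    have hK : ((KH H).comap (rG2 D)).FiniteIndex := fi_comap (rG2 D) hsurj (KH H)
    change FreeRes m ((KH H).comap (rG2 D)) ↔ _
    have hFF := main3 D (cls_sub ((KH H).comap (rG2 D)) m)
      (fun u hu => ff_pi (fun _ : Fin m => _) fun _ =>
        res_ff ((KH H).comap (rG2 D)) _ (ind_ff (kU_inj D u hu) _ _ (kU_ind D u hu) ff_trivF2))
      (ff_pi (fun _ : Fin m => _) fun _ =>
        res_ff ((KH H).comap (rG2 D)) _ (ind_ff (kG2_inj D) _ _ (kG2_base D) (ff_trivProd G hG)))
      hinj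
    have eF := cls23_pull (prH (ch D)) (cls_sub ((KH H).comap (rG2 D)) m)
    obtain ⟨hp1, hp2⟩ := res_proj H P hP1 hP2
    have hPH : FP (ZG H) (Pull H.subtype P) := ⟨0, hp1, hp2⟩
    have hM1 := ret_mackey (kG2 D) (rG2 D) (rG2_kG2 D) (KH H) (jH H)
      (fun a ha => ⟨(⟨a.1, ha⟩, a.2), rfl⟩) (kH D H) (kH_val D H) hU2
    have e1 : Pull (jH H) (Pull (MonoidHom.fst G F2) P) ≃ₗ[ZG (H × F2)]
        Pull (MonoidHom.fst H F2) (Pull H.subtype P) :=
      (pullPull (jH H) (MonoidHom.fst G F2) ((MonoidHom.fst G F2).comp (jH H)) (fun _ => rfl) P).trans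
        (pullPull (MonoidHom.fst H F2) H.subtype ((MonoidHom.fst G F2).comp (jH H))
          (fun _ => rfl) P).symm
    have hM := ind_iso _ _ _ _ hM1 e1 (LinearEquiv.refl _ _)
    rw [freeRes_sub, hFF, ← coef_ff H (Pull H.subtype P) hPH m]
    constructor
    · intro h
      have h2 := eF.iso e h
      exact ind_reduce (kH_inj D H) _ _ (desc_ret (kH D H) (rH D H) (rH_kH D H))
        (fp_pi (fun _ : Fin m => Pull (MonoidHom.fst H F2) (Pull H.subtype P)) fun _ =>
          coef_fp H (Pull H.subtype P) hPH)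
        (ind_pi _ _ m hM) h2
    · intro h
      exact eF.iso e.symm (ind_ff (kH_inj D H) _ _ (ind_pi _ _ m hM) h)

end Pool.Agent.VFm
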