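import Pool.Agent.VFm.Real

/-!
# Module Real2: the realisation theorem for groups of type (FP)
-/

set_option linter.unusedSectionVars false

namespace Pool.Agent.VFm

open Pool.Agent.Hhelper49.Srr Pool.Agent.Hhelper49.Srf Pool.Agent.SFP

/-- powers of a projective module -/
theorem proj_pow {G : Type} [Group G] (P : Type) [AddCommGroup P] [Module (ZG G) P]
    (h1 : Module.Finite (ZG G) P) (h2 : Module.Projective (ZG G) P) (m : ℕ) :
    Module.Projective (ZG G) (Fin m → P) := by
  obtain ⟨n, f, hf⟩ := Module.Finite.exists_fin' (ZG G) P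
  obtain ⟨s, hs⟩ := Module.projective_lifting_property f LinearMap.id hf
  have hfs : ∀ p, f (s p) = p := fun p => LinearMap.congr_fun hs p
  refine Module.Projective.of_split (P := Fin m → P) (M := Fin m → Fin n → ZG G)
    (s.compLeft (Fin m)) (f.compLeft (Fin m)) ?_
  apply LinearMap.ext
  intro v
  funext j
  exact hfs (v j)

/-- the realisation theorem, compatible with all subgroups of finite index -/
theorem point_fpH (G : Type) [Group G] (hG : TypeFP G) (P : Type) [AddCommGroup P]
    [Module (MonoidAlgebra ℤ G) P] (hP1 : Module.Finite (MonoidAlgebra ℤ G) P)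
    (hP2 : Module.Projective (MonoidAlgebra ℤ G) P) :
    ∃ (R : Type) (_ : Group R) (i : G →* R) (r : R →* G), (∀ g, r (i g) = g) ∧ TypeFP R ∧
      (Group.IsFinitelyPresented G → Group.IsFinitelyPresented R) ∧
      ∀ (H : Subgroup G) [H.FiniteIndex] (m : ℕ), FreeRes m (H.comap r) ↔
        StFree H (Fin m → Pull H.subtype P) := by
  set κ : G →* G × FreeGroup (Fin 1) := MonoidHom.inl G _ with hκd
  have hκ : Function.Injective κ := fun a b h => congrArg Prod.fst h
  obtain ⟨N, _, _, hN⟩ := exists_ind κ hκ P hP1 hP2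
  obtain ⟨hN1, hN2⟩ := ind_proj hκ P N hN hP1 hP2
  obtain ⟨R, _, i, r, h1, h2, h3, h4⟩ := point_ffH _ (typeFF_prod G hG) N hN1 hN2
  refine ⟨R, inferInstance, i.comp κ, (MonoidHom.fst G (FreeGroup (Fin 1))).comp r, ?_, h2, ?_, ?_⟩
  · intro g
    change (r (i (κ g))).1 = g
    rw [h1]
    rfl
  · intro hGp
    have : Group.IsFinitelyPresented (G × FreeGroup (Fin 1)) := prod_fpres _ _
    exact h3 this
  · intro H hH m
    have hfi : (H.comap (MonoidHom.fst G (FreeGroup (Fin 1)))).FiniteIndex :=
      fi_comap (MonoidHom.fst G (FreeGroup (Fin 1))) (fun g => ⟨(g, 1), rfl⟩) H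
    change FreeRes m ((H.comap (MonoidHom.fst G (FreeGroup (Fin 1)))).comap r) ↔ _
    rw [h4 (H.comap (MonoidHom.fst G (FreeGroup (Fin 1)))) m]
    obtain ⟨q1, q2⟩ := res_proj H P hP1 hP2
    have hPH : FP (ZG H) (Fin m → Pull H.subtype P) :=
      fp_pi (fun _ : Fin m => Pull H.subtype P) fun _ => ⟨0, q1, q2⟩
    let κ' : H →* H.comap (MonoidHom.fst G (FreeGroup (Fin 1))) :=
      (κ.comp H.subtype).codRestrict _ (fun x => by
        rw [Subgroup.mem_comap]
        exact x.2)
    let r' : H.comap (MonoidHom.fst G (FreeGroup (Fin 1))) →* H :=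
      ((MonoidHom.fst G (FreeGroup (Fin 1))).comp
        (H.comap (MonoidHom.fst G (FreeGroup (Fin 1)))).subtype).codRestrict H (fun x => x.2)
    have hκ' : Function.Injective κ' := by
      intro a b h
      have h1 := congrArg (fun z => ((z : G × FreeGroup (Fin 1))).1) (congrArg Subtype.val h)
      exact Subtype.ext h1
    have hM := ret_mackey κ (MonoidHom.fst G (FreeGroup (Fin 1))) (fun _ => rfl) H H.subtype
      (fun a ha => ⟨⟨a, ha⟩, rfl⟩) κ' (fun _ => rfl) hN
    rw [← ff_iff_stFree H _ (proj_pow (Pull H.subtype P) q1 q2 m)]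
    constructor
    · intro h
      exact ind_reduce hκ' (Fin m → Pull H.subtype P) _ (desc_ret κ' r' (fun _ => rfl)) hPH
        (ind_pi _ _ m hM) h
    · intro h
      exact ind_ff hκ' _ _ (ind_pi _ _ m hM) h

end Pool.Agent.VFm
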