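import Pool.Agent.SFP.Fin4
import Pool.Agent.Hhelper49.Srd.ResF

/-!
# Module Res: restriction to a subgroup of finite index preserves (FF) and (FP)
-/

set_option linter.unusedSectionVars false

namespace Pool.Agent.VFm

open Pool.Agent.Hhelper49.Srr Pool.Agent.Hhelper49.Srf Pool.Agent.SFP

section
variable {G : Type} [Group G] (H : Subgroup G) [hfi : H.FiniteIndex]

/-- `ℤ[G]` restricted to `H` is free of finite rank -/
theorem res_grp : Module.Finite (ZG H) (Pull H.subtype (ZG G)) ∧
    Module.Free (ZG H) (Pull H.subtype (ZG G)) := by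
  classical
  have hfQ : Finite (resFQ H) :=
    Finite.of_equiv _ (QuotientGroup.quotientRightRelEquivQuotientLeftRel H).symm
  have : Fintype (resFQ H) := Fintype.ofFinite _
  obtain ⟨h1, h2⟩ := resF_grp H
  letI i0 : Module (MonoidAlgebra ℤ H) (MonoidAlgebra ℤ G) :=
    Module.compHom (MonoidAlgebra ℤ G) (resFPhi H)
  let e : (MonoidAlgebra ℤ G) ≃ₗ[ZG H] Pull H.subtype (ZG G) :=
    mkEquiv (A := MonoidAlgebra ℤ G) (B := Pull H.subtype (ZG G)) (AddEquiv.refl _) (by
      intro h a
      change (act h a : MonoidAlgebra ℤ G) = (act h (Pull.mk H.subtype a) : Pull H.subtype (ZG G)).un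
      rw [Pull.act_apply]
      have h3 : resFPhi H (MonoidAlgebra.of ℤ H h) = MonoidAlgebra.of ℤ G (h : G) :=
        MonoidAlgebra.mapDomain_single
      change resFPhi H (MonoidAlgebra.of ℤ H h) * a = MonoidAlgebra.of ℤ G (h : G) * a
      rw [h3])
  exact ⟨Module.Finite.equiv e, Module.Free.of_equiv e⟩

theorem res_ff_grp : FF (ZG H) (Pull H.subtype (ZG G)) := ⟨0, (res_grp H).1, (res_grp H).2⟩

theorem res_ff_free (k : ℕ) : FF (ZG H) (Pull H.subtype (Fin k → ZG G)) := by
  have h1 : FF (ZG H) (Fin k → Pull H.subtype (ZG G)) :=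
    ff_pi (fun _ : Fin k => Pull H.subtype (ZG G)) fun _ => res_ff_grp H
  refine ff_iso (mkEquiv (A := Fin k → Pull H.subtype (ZG G)) (B := Pull H.subtype (Fin k → ZG G))
    (AddEquiv.refl _) ?_) h1
  intro h a
  change (act h a : Fin k → Pull H.subtype (ZG G)) =
    (act h (Pull.mk H.subtype a) : Pull H.subtype (Fin k → ZG G)).un
  rw [Pull.act_apply]
  funext j
  exact Pull.act_apply (κ := H.subtype) h (a j)

theorem res_ff_aux (n : ℕ) : ∀ (M : Type) [AddCommGroup M] [Module (ZG G) M], FFl (ZG G) n M →
    FF (ZG H) (Pull H.subtype M) := by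
  induction n with
  | zero =>
    intro M _ _ hM
    obtain ⟨h1, h2⟩ := hM
    have b := (Module.Free.chooseBasis (ZG G) M).reindex (Fintype.equivFin _)
    exact (cls23_pull H.subtype (cls23_ff (ZG H))).iso b.equivFun.symm (res_ff_free H _)
  | succ n ih =>
    intro M _ _ hM
    obtain ⟨k, f, hf, hk⟩ := hM
    exact (cls23_pull H.subtype (cls23_ff (ZG H))).coker (LinearMap.ker f).subtype f
      (Submodule.injective_subtype _) hf (Submodule.range_subtype _) (ih _ hk) (res_ff_free H k)

/-- restriction to a subgroup of finite index preserves (FF) -/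
theorem res_ff (M : Type) [AddCommGroup M] [Module (ZG G) M] (h : FF (ZG G) M) :
    FF (ZG H) (Pull H.subtype M) := by
  obtain ⟨n, hn⟩ := h
  exact res_ff_aux H n M hn

/-- restriction of a finitely generated projective module -/
theorem res_proj (P : Type) [AddCommGroup P] [Module (ZG G) P] (h1 : Module.Finite (ZG G) P)
    (h2 : Module.Projective (ZG G) P) :
    Module.Finite (ZG H) (Pull H.subtype P) ∧ Module.Projective (ZG H) (Pull H.subtype P) := by
  obtain ⟨n, f, hf⟩ := Module.Finite.exists_fin' (ZG G) P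
  obtain ⟨s, hs⟩ := Module.projective_lifting_property f LinearMap.id hf
  have hfs : ∀ p, f (s p) = p := fun p => LinearMap.congr_fun hs p
  obtain ⟨g1, g2⟩ := res_grp H
  let e : (Fin n → Pull H.subtype (ZG G)) ≃ₗ[ZG H] Pull H.subtype (Fin n → ZG G) :=
    mkEquiv (A := Fin n → Pull H.subtype (ZG G)) (B := Pull H.subtype (Fin n → ZG G))
      (AddEquiv.refl _) (by
        intro h a
        change (act h a : Fin n → Pull H.subtype (ZG G)) =
          (act h (Pull.mk H.subtype a) : Pull H.subtype (Fin n → ZG G)).un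
        rw [Pull.act_apply]
        funext j
        exact Pull.act_apply (κ := H.subtype) h (a j))
  have h3 : Module.Finite (ZG H) (Pull H.subtype (Fin n → ZG G)) := Module.Finite.equiv e
  have h4 : Module.Free (ZG H) (Pull H.subtype (Fin n → ZG G)) := Module.Free.of_equiv e
  refine ⟨Module.Finite.of_surjective (pullLin H.subtype f) hf, ?_⟩
  refine Module.Projective.of_split (pullLin H.subtype s) (pullLin H.subtype f) ?_
  apply LinearMap.ext
  intro v
  exact hfs v

end

/-- an isomorphic group -/
theorem typeFF_congr {G G' : Type} [Group G] [Group G'] (e : G ≃* G') (h : TypeFF G) :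
    TypeFF G' := by
  rw [typeFF_iff] at h ⊢
  exact freeRes_congr 1 _ _ e h

/-- `FreeRes` restricts to subgroups of finite index -/
theorem freeRes_res {G : Type} [Group G] (H : Subgroup G) [H.FiniteIndex] (m : ℕ)
    (h : FreeRes m G) : FreeRes m H := by
  rw [freeRes_iff] at h ⊢
  refine ff_iso ?_ (res_ff H _ h)
  exact mkEquiv (A := Pull H.subtype (Fin m → Triv G)) (B := Fin m → Triv H) (AddEquiv.refl _) (by
    intro g a
    let b : Fin m → Triv H := a.un
    change (act g a : Pull H.subtype (Fin m → Triv G)).un = (act g b : Fin m → Triv H)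
    rw [Pull.act_apply]
    funext j
    exact (act_triv G (g : G) (a.un j)).trans (act_triv H g (b j)).symm)

theorem typeFF_res {G : Type} [Group G] (H : Subgroup G) [H.FiniteIndex] (h : TypeFF G) :
    TypeFF H := by
  rw [typeFF_iff] at h ⊢
  exact freeRes_res H 1 h

end Pool.Agent.VFm
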